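import Pool.Agent.Y667.OG.Trans
import Pool.Agent.Y667.QK.StmR

/-!
# Project QK (helper667): root numbers over multiquadratic fields, statements of the parts
-/

set_option autoImplicit false

namespace Pool.Agent.Y667.QK.EV

open NumberField Ideal Pool.Agent.Y667.PA Pool.Agent.Y667.OG Pool.Agent.Y285.RP

/-- **EVG** (the multiquadratic field is Galois, it has an even number of infinite places and an even
number of primes over every `p` that does not ramify). -/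
def St_EVG : Prop := ∀ (m : ℕ) (q q' : Fin m → ℕ), 2 ≤ m → (∀ j, (q j).Prime ∧ q j % 8 = 1) →
  (∀ j, (q' j).Prime ∧ q' j % 8 = 1) → Function.Injective q → Function.Injective q' →
  (∀ i j, q i ≠ q' j) → ∀ (K : Type) [Field K] [NumberField K],
    Pool.Agent.TH841.NF.Gen K (fun j => ((q j * q' j : ℕ) : ℤ)) →
      IsGalois ℚ K ∧ Even (Nat.card (InfinitePlace K)) ∧
        ∀ p : ℕ, p.Prime → (∀ j, p ≠ q j ∧ p ≠ q' j) →
          Even (primesOver (span {(p : ℤ)}) (𝓞 K)).ncard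

/-- **TAU** (the local root number at the primes over `τ` is one). -/
def St_TAU : Prop := ∀ (τ : ℕ) (s : Fin 3 → ℕ), AdT τ → DP s → Nat.Coprime τ (∏ j, s j) →
  ∀ k : ℤ, (s 0 : ℤ) + s 1 = 3 * k → ∀ (K : Type) [Field K] [NumberField K] (P : Ideal (𝓞 K)),
    P.IsPrime → P ≠ ⊥ → below P ∣ τ →
    LocalRootK ((⟨0, 0, 0, ((cc ((τ : ℤ) * s 0) ((τ : ℤ) * s 1) ((τ : ℤ) * k)).1 : ℚ),
      ((cc ((τ : ℤ) * s 0) ((τ : ℤ) * s 1) ((τ : ℤ) * k)).2 : ℚ)⟩ : WeierstrassCurve ℚ).map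
        (algebraMap ℚ K)) P 1

/-- **MUL** (the local root numbers at the primes over a prime of multiplicative reduction are all
equal; the primes of good reduction). -/
def St_MUL : Prop := ∀ (τ : ℕ) (s : Fin 3 → ℕ), AdT τ → DP s → Nat.Coprime τ (∏ j, s j) →
  ∀ k : ℤ, (s 0 : ℤ) + s 1 = 3 * k → ∀ (K : Type) [Field K] [NumberField K] [IsGalois ℚ K],
    (∀ p ∈ insert 2 (∏ j, s j).primeFactors, ∃ w : ℤ, (w = 1 ∨ w = -1) ∧
      ∀ P ∈ primesOver (span {(p : ℤ)}) (𝓞 K),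
        LocalRootK ((⟨0, 0, 0, ((cc ((τ : ℤ) * s 0) ((τ : ℤ) * s 1) ((τ : ℤ) * k)).1 : ℚ),
          ((cc ((τ : ℤ) * s 0) ((τ : ℤ) * s 1) ((τ : ℤ) * k)).2 : ℚ)⟩ : WeierstrassCurve ℚ).map
            (algebraMap ℚ K)) P w) ∧
    ∀ P : Ideal (𝓞 K), P.IsPrime → P ≠ ⊥ → ¬ below P ∣ τ →
      below P ∉ insert 2 (∏ j, s j).primeFactors →
        LocalRootK ((⟨0, 0, 0, ((cc ((τ : ℤ) * s 0) ((τ : ℤ) * s 1) ((τ : ℤ) * k)).1 : ℚ),
          ((cc ((τ : ℤ) * s 0) ((τ : ℤ) * s 1) ((τ : ℤ) * k)).2 : ℚ)⟩ : WeierstrassCurve ℚ).map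
            (algebraMap ℚ K)) P 1

end Pool.Agent.Y667.QK.EV
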