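import Pool.Agent.Y667.QKE.Main0
import Pool.Agent.Y427.QKE.Evg
import Pool.Agent.Y67.QKE.TAU
import Pool.Agent.Y837.QKE.MUL

/-!
# Project QK: the main theorems with the root number over the field
-/

set_option autoImplicit false

namespace Pool.Agent.Y667.QK.R.E

open Finset Filter Pool.Agent.W262.RK Pool.Agent.W307.RT Pool.Agent.W307.RS Pool.Agent.W307.SE
  Pool.Agent.W307.FK Pool.Agent.Y667.RP Pool.Agent.Y667.RZ

open Classical in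
/-- **Main theorem**, ordering by the height. -/
theorem mainH (m N : ℕ) (hm : 2 ≤ m) :
    ∃ L : Finset (Fin m → ℕ), (∀ d ∈ L, Tup8 m N d) ∧ ∃ δ : ℝ, 0 < δ ∧ ∃ H0 : ℕ,
      ∀ H : ℕ, H0 ≤ H → ∃ d ∈ L, δ * ((Cv 2 H).card : ℝ) ≤
        (((Cv 2 H).filter (TwE (fun j => (d j : ℤ)))).card : ℝ) :=
  main_h pare Pool.Agent.Y67.QKE.TAU Pool.Agent.Y837.QKE.MUL Pool.Agent.Y427.QKE.EVG m N hm

open Classical in
/-- **Main theorem**, ordering by the minimal discriminant. -/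
theorem mainD (m N : ℕ) (hm : 2 ≤ m) :
    ∃ L : Finset (Fin m → ℕ), (∀ d ∈ L, Tup8 m N d) ∧ ∃ δ : ℝ, 0 < δ ∧ ∃ Z0 : ℕ,
      ∀ Z : ℕ, Z0 ≤ Z → ∃ d ∈ L, δ * ((Pool.Agent.TH344.DS.Dv Z).card : ℝ) ≤
        (((Pool.Agent.TH344.DS.Dv Z).filter (TwE (fun j => (d j : ℤ)))).card : ℝ) :=
  main_d pare Pool.Agent.Y67.QKE.TAU Pool.Agent.Y837.QKE.MUL Pool.Agent.Y427.QKE.EVG m N hm

end Pool.Agent.Y667.QK.R.E
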