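import Pool.Agent.Y667.QKE.Stm

/-!
# Project QK: the root number over a Galois field with many primes over every prime
-/

set_option autoImplicit false

namespace Pool.Agent.Y667.QK.EV

open Finset NumberField Ideal Pool.Agent.Y667.PA Pool.Agent.Y667.OG Pool.Agent.Y285.RP

theorem rootK (hT : St_TAU) (hM : St_MUL) {τ : ℕ} {s : Fin 3 → ℕ} (hA : AdT τ) (hD : DP s)
    (hc : Nat.Coprime τ (∏ j, s j)) {k : ℤ} (hk : (s 0 : ℤ) + s 1 = 3 * k)
    (K : Type) [Field K] [NumberField K] [IsGalois ℚ K]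
    (hinf : Even (Nat.card (InfinitePlace K)))
    (hg : ∀ p ∈ insert 2 (∏ j, s j).primeFactors,
      Even (primesOver (span {(p : ℤ)}) (𝓞 K)).ncard) :
    RootNumberK ((⟨0, 0, 0, ((cc ((τ : ℤ) * s 0) ((τ : ℤ) * s 1) ((τ : ℤ) * k)).1 : ℚ),
      ((cc ((τ : ℤ) * s 0) ((τ : ℤ) * s 1) ((τ : ℤ) * k)).2 : ℚ)⟩ : WeierstrassCurve ℚ).map
        (algebraMap ℚ K)) 1 := by
  classical
  obtain ⟨hm1, hm2⟩ := hM τ s hA hD hc k hk K
  have hTK := hT τ s hA hD hc k hk K
  obtain ⟨S, hSdef⟩ : ∃ S, S = insert 2 (∏ j, s j).primeFactors := ⟨_, rfl⟩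
  rw [← hSdef] at hm1 hm2 hg
  have hSp : ∀ p ∈ S, p.Prime := by
    intro p hp
    rw [hSdef, mem_insert] at hp
    rcases hp with rfl | hp
    · exact Nat.prime_two
    · exact Nat.prime_of_mem_primeFactors hp
  have hex : ∀ p : ℕ, ∃ w : ℤ, p ∈ S → (w = 1 ∨ w = -1) ∧
      ∀ P ∈ primesOver (span {(p : ℤ)}) (𝓞 K),
        LocalRootK ((⟨0, 0, 0, ((cc ((τ : ℤ) * s 0) ((τ : ℤ) * s 1) ((τ : ℤ) * k)).1 : ℚ),
          ((cc ((τ : ℤ) * s 0) ((τ : ℤ) * s 1) ((τ : ℤ) * k)).2 : ℚ)⟩ : WeierstrassCurve ℚ).map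
            (algebraMap ℚ K)) P w := by
    intro p
    by_cases hp : p ∈ S
    · obtain ⟨w, hw⟩ := hm1 p hp
      exact ⟨w, fun _ => hw⟩
    · exact ⟨0, fun h => absurd h hp⟩
  choose w hw using hex
  obtain ⟨T, hTs⟩ : ∃ T : ℕ → Finset (Ideal (𝓞 K)), ∀ p ∈ S,
      (T p : Set (Ideal (𝓞 K))) = primesOver (span {(p : ℤ)}) (𝓞 K) := by
    refine ⟨fun p => if h : p ∈ S then (finite_over (K := K) p (hSp p h)).toFinset else ∅,
      fun p hp => ?_⟩
    simp only [dif_pos hp, Set.Finite.coe_toFinset]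
  have hmem : ∀ p ∈ S, ∀ P, P ∈ T p ↔ P ∈ primesOver (span {(p : ℤ)}) (𝓞 K) := by
    intro p hp P
    rw [← hTs p hp, mem_coe]
  refine ⟨fun P => if below P ∈ S then w (below P) else 1, ?_, S.biUnion T, ?_, ?_, ?_⟩
  · intro P hP1 hP2
    by_cases h : below P ∈ S
    · simp only [if_pos h]
      exact (hw _ h).2 P (below_mem P hP1)
    · simp only [if_neg h]
      by_cases h2 : below P ∣ τ
      · exact hTK P hP1 hP2 h2
      · exact hm2 P hP1 hP2 h2 h
  · intro P hP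
    obtain ⟨p, hp, hPp⟩ := mem_biUnion.1 hP
    rw [hmem p hp] at hPp
    exact ⟨hPp.1, over_ne (hSp p hp) hPp⟩
  · intro P hP1 hP2 hn
    refine if_neg fun hS' => hn ?_
    exact mem_biUnion.2 ⟨below P, hS', (hmem _ hS' P).2 (below_mem P hP1)⟩
  · rw [hinf.neg_one_pow, one_mul, prod_biUnion]
    · symm
      refine prod_eq_one fun p hp => ?_
      have h3 : ∀ P ∈ T p, (if below P ∈ S then w (below P) else 1) = w p := by
        intro P hP
        rw [hmem p hp] at hP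
        rw [below_eq (hSp p hp) hP, if_pos hp]
      rw [prod_congr rfl h3, prod_const]
      have h4 : (T p).card = (primesOver (span {(p : ℤ)}) (𝓞 K)).ncard := by
        rw [← hTs p hp, Set.ncard_coe_finset]
      have h5 : Even (T p).card := by
        rw [h4]
        exact hg p hp
      rcases (hw p hp).1 with h | h
      · rw [h, one_pow]
      · rw [h, h5.neg_one_pow]
    · intro p hp q hq hpq
      rw [Function.onFun, Finset.disjoint_left]
      intro P hP hQ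
      rw [hmem p hp] at hP
      rw [hmem q hq] at hQ
      exact hpq ((below_eq (hSp p hp) hP).symm.trans (below_eq (hSp q hq) hQ))

end Pool.Agent.Y667.QK.EV
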