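import Pool.Agent.Y667.QKR.MainT

/-!
# Project QK, the main argument with the factorization of the pairs, part 1
-/

set_option autoImplicit false

namespace Pool.Agent.Y667.QK.R.E

open Finset Pool.Agent.W262.RK Pool.Agent.W307.RT Pool.Agent.W307.RS Pool.Agent.W307.SE
  Pool.Agent.W307.FK Pool.Agent.Y667.RP Pool.Agent.Y667.RZ Pool.Agent.Y667.PA
  Pool.Agent.Y285.RP

/-- the factorization of the pair -/
def Fac (f D : ℕ) (x : ℕ × ℕ) : Prop := ∃ s : Fin 3 → ℕ, s 0 = x.1 ∧ s 1 = x.2 ∧ DP s ∧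
  Nat.Coprime (f * D) (∏ j, s j)

/-- the good pairs, with the factorization -/
def GoodE (f β D t X : ℕ) (x : ℕ × ℕ) : Prop := GoodR f β D t X x ∧ Fac f D x

open Classical in
/-- **MAINT** with the root numbers and the factorization -/
def St_MAINTE : Prop := ∀ f β : ℕ, Flip f β → ∀ m : ℕ, ∃ c : ℝ, 0 < c ∧ ∃ ε : ℝ, 0 < ε ∧ ∃ z : ℕ,
  ∀ D : ℕ, AdT (f * D) → (∀ q ∈ D.primeFactors, z < q) → ∑ q ∈ D.primeFactors, 1 / (q : ℝ) ≤ ε →
  ∃ X0 : ℕ, ∀ X : ℕ, X0 ≤ X → ∀ t ∈ D.divisors, t.primeFactors.card ≤ m →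
    c * (X : ℝ) ^ 2 / (D : ℝ) ^ 2 ≤ (((Icc 1 X ×ˢ Icc 1 X).filter (GoodE f β D t X)).card : ℝ)

section cls

variable {f β D t z Q0 a0 b0 X : ℕ} {s : Fin 3 → ℕ} {E : Finset ℕ} {y : ℕ × ℕ}

/-- the conditions for a good pair -/
lemma goodE_of (hI : InpR) (hC : Ctx f β D t z) (hM : ModK f β D z Q0 a0 b0)
    (hD : Dat z s) (hDs : D.Coprime (∏ j, s j)) (hy : y ∈ AA X Q0 a0 b0 s E)
    (hl : (vv s y).Prime) (hls : ¬ vv s y ∣ ∏ j, s j) (hne : y.1 ≠ y.2)
    (h1 : ¬ y.1 ∣ ∏ j, s j) (h2 : ¬ y.2 ∣ ∏ j, s j) (h3 : z < y.1) (h4 : z < y.2)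
    (hG : Gd f t s E) :
    GoodE f β D t X (s 0 * y.1, s 1 * y.2) := by
  have hf17 := hC.f17
  have hzf := hC.zf
  have hz2 : 2 ≤ z := by omega
  have heq := AA_eq hz2 hD hM hy
  have hlt := AA_lt hy
  have hmod := AA_mod64 hM hy
  have hlz : z < vv s y := by
    by_contra hcon
    push Not at hcon
    exact AA_small hz2 hD hM hy hl (Or.inl hcon) dvd_rfl
  have hlD : ¬ vv s y ∣ D := fun h => AA_small hz2 hD hM hy hl (Or.inr h) dvd_rfl
  obtain ⟨hmD, hnD⟩ := AA_nd hM hC hy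
  have hRC := AA_RC hM hC hy
  have hmem := hy
  unfold AA at hmem
  rw [mem_filter] at hmem
  obtain ⟨-, hm, hn, k1, k2, k3, k4, k5, k6, -, k8⟩ := hmem
  have he' : s 0 * y.1 = s 1 * y.2 + 32 * (s 2 * vv s y) := by omega
  have hml : y.1 ≠ vv s y := by
    intro h
    have h5 : y.1 ∣ s 1 * y.2 := by
      have h6 : y.1 ∣ s 0 * y.1 := dvd_mul_left _ _
      rw [he'] at h6
      refine (Nat.dvd_add_left (dvd_mul_of_dvd_right ?_ _)).1 h6
      rw [← h]
      exact dvd_mul_left _ _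
    rcases (hm.dvd_mul).1 h5 with h6 | h6
    · exact h1 (h6.trans (Dat.dvd 1))
    · exact hne ((Nat.prime_dvd_prime_iff_eq hm hn).1 h6)
  have hnl : y.2 ≠ vv s y := by
    intro h
    have h5 : y.2 ∣ s 0 * y.1 := by
      rw [he', ← h]
      exact dvd_add (dvd_mul_left _ _) (dvd_mul_of_dvd_right (dvd_mul_left _ _) _)
    rcases (hn.dvd_mul).1 h5 with h6 | h6
    · exact h2 (h6.trans (Dat.dvd 0))
    · exact hne ((Nat.prime_dvd_prime_iff_eq hn hm).1 h6).symm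
  have hG' : Gd f t s (sgF ((s 0 * y.1 : ℕ) : ℤ) ((s 1 * y.2 : ℕ) : ℤ) (∏ j, s j)) := by
    rw [k8]; exact hG
  obtain ⟨s', e0, e1, e2, e3, d', cd', c1, c2⟩ := three hI.ng hC hD hDs ((s 0 * y.1 : ℕ) : ℤ)
    ((s 1 * y.2 : ℕ) : ℤ) hm hn hl hne hml hnl h1 h2 hls h3 h4 hlz hmD hnD hlD hG'
  have hQ3 : 3 ∣ Q0 := hM.dvd 3 Nat.prime_three (Or.inl (by omega))
  have hsel := sel_of hI.vn hI.sel hI.par hI.low hI.pare hI.root hI.abs hC d' cd' (by rw [e0, e1]; exact hlt)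
    (by rw [e0, e1, e2, he']; push_cast; ring) (by rw [e0]; omega) (by rw [e1]; omega)
    (by rw [e0, e1]; exact hRC)
    (by
      intro σ hσ
      obtain ⟨p, hp, hps, hpj⟩ := sigma_of hC.adt (hD.odd hz2) hG.1 hσ
      refine ⟨p, hp, ?_, hpj⟩
      rw [e3]
      exact ((hps.mul_right _).mul_right _).mul_right _)
    (by rw [e0, e1]; exact c1) (by rw [e0, e1]; exact c2)
  rw [e0, e1] at hsel
  have hfac : Fac f D (s 0 * y.1, s 1 * y.2) := by
    refine ⟨s', e0, e1, ⟨d'.sqf, d'.odd hz2, ?_, ?_, ?_⟩, Nat.Coprime.mul_left (hC.copf d'.gt) cd'⟩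
    · rw [e0, e1, e2, he']; push_cast; ring
    · rw [e0]; omega
    · rw [e1]; omega
  refine ⟨⟨k1, k2, k3, k4, ?_, ?_, hRC, ?_, hsel⟩, hfac⟩
  · have h5 : s 0 * y.1 ≡ a0 [MOD 3] := k5.of_dvd hQ3
    have h6 := hM.ap 3 Nat.prime_three le_rfl (Or.inl (by omega))
    rw [Nat.ModEq] at h5
    show (s 0 * y.1) % 3 = 1
    omega
  · have h5 : s 1 * y.2 ≡ b0 [MOD 3] := k6.of_dvd hQ3
    have h6 := hM.bp 3 Nat.prime_three le_rfl (Or.inl (by omega)) (by omega)
    rw [Nat.ModEq] at h5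
    show (s 1 * y.2) % 3 = 2
    omega
  · show Nat.Coprime (s 0 * y.1) (s 1 * y.2)
    have h5 : (s' 0).Coprime (s' 1) := d'.cop.1
    rw [e0, e1] at h5
    exact h5

/-- classification -/
theorem cls (hI : InpR) (hC : Ctx f β D t z) (hB : Big z X) (hM : ModK f β D z Q0 a0 b0)
    (hD : Dat z s) (hDs : D.Coprime (∏ j, s j))
    (hS : Sml X s) (hG : Gd f t s E) (hy : y ∈ AA X Q0 a0 b0 s E)
    (hr : Rg3 X (vv s y)) :
    GoodE f β D t X (s 0 * y.1, s 1 * y.2) ∨ Exc X s y ∨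
      ∃ q ∈ Pt X, ∃ F ∈ BS f t s E q, y ∈ AA X Q0 a0 b0 (up s q) F ∧ Rg3 X (vv (up s q) y) := by
  classical
  have hf17 := hC.f17
  have hzf := hC.zf
  have hz2 : 2 ≤ z := by omega
  have hX1 : 1 ≤ X := by have := hB.two; omega
  by_cases hexc : Exc X s y
  · exact Or.inr (Or.inl hexc)
  have hne : y.1 ≠ y.2 := fun h => hexc (Or.inl h)
  have hns : ¬ ∃ q : ℕ, q.Prime ∧ (X : ℝ) ^ (1 / 4 : ℝ) ≤ q ∧ q ^ 2 ∣ vv s y :=
    fun h => hexc (Or.inr h)
  have hsize := AA_size hz2 hD hM hy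
  have heq := AA_eq hz2 hD hM hy
  obtain ⟨hb1, hb2, hb3⟩ := AA_big hB hS hy
  have hmem := hy
  unfold AA at hmem
  rw [mem_filter] at hmem
  obtain ⟨hII, hm, hn, k1, k2, k3, k4, k5, k6, k7, k8⟩ := hmem
  have hs2 : 0 < s 2 := Nat.pos_of_ne_zero (hD.ne 2)
  have hz4 : (z : ℝ) ≤ (X : ℝ) ^ (1 / 2 : ℝ) := by
    refine hB.r4.le.trans ?_
    exact Real.rpow_le_rpow_of_exponent_le (by exact_mod_cast hX1) (by norm_num)
  have hzt := hb3 z hz4
  have hv1 : 1 < vv s y := by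
    by_contra hcon
    push Not at hcon
    have h1 := hB.le (hS 2) (v := 1) (by
      rw [Nat.cast_one]
      exact Real.one_le_rpow (by exact_mod_cast hX1) (by norm_num))
    have h2 : s 2 * vv s y ≤ s 2 * 1 := Nat.mul_le_mul_left _ hcon
    omega
  have hvX : vv s y < X := by
    have : vv s y ≤ s 2 * vv s y := Nat.le_mul_of_pos_left _ hs2
    omega
  have hgt : ∀ p : ℕ, p.Prime → p ∣ vv s y → ∀ j, s j < p := by
    intro p hp h j
    have h1 := hr p hp h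
    have h0 := third hX1
    have h2 := hS j
    have h3 := hB.k4
    have : (s j : ℝ) < p := by linarith
    exact_mod_cast this
  rcases class3 hv1 hvX hr with h | h | h
  · left
    exact goodE_of hI hC hM hD hDs hy h (nd_of_gt h (hgt _ h dvd_rfl) hD) hne
      (nd_of_gt hm hb1 hD) (nd_of_gt hn hb2 hD) hzt.1 hzt.2 hG
  · obtain ⟨q, h5, h6, h7⟩ := h
    exact absurd ⟨q, h5, (third hX1).trans h6, h7⟩ hns
  · obtain ⟨q1, q2, hq1, hq2, hq12, hl, hr1, hr2⟩ := h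
    have hq1v : q1 ∣ vv s y := by rw [hl]; exact dvd_mul_right _ _
    have hq1X : q1 < X := by
      have : q1 ≤ vv s y := Nat.le_of_dvd (by omega) hq1v
      omega
    have hPt : q1 ∈ Pt X := by
      unfold Pt
      rw [mem_filter, mem_Icc]
      exact ⟨⟨hq1.one_lt.le, hq1X.le⟩, hq1, hr1, hr2⟩
    have hq1s : ¬ q1 ∣ ∏ j, s j :=
      nd_of_gt hq1 (hgt q1 hq1 hq1v) hD
    have hq2s : ¬ q2 ∣ ∏ j, s j :=
      nd_of_gt hq2 (hgt q2 hq2 (by rw [hl]; exact dvd_mul_left _ _)) hD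
    have hq1z : z < q1 := by
      have h1 := hB.r4
      have h0 := third hX1
      have : (z : ℝ) < q1 := by linarith
      exact_mod_cast this
    have hq1D : ¬ q1 ∣ D := fun h => AA_small hz2 hD hM hy hq1 (Or.inr h) hq1v
    have hD' := Dat_up hD hq1 hq1z hq1s
    have hDs' : D.Coprime (∏ j, up s q1 j) := by
      rw [up_prod]
      exact Nat.Coprime.mul_right hDs ((Nat.Prime.coprime_iff_not_dvd hq1).2 hq1D).symm
    set F := sgF ((s 0 * y.1 : ℕ) : ℤ) ((s 1 * y.2 : ℕ) : ℤ) (∏ j, up s q1 j) with hF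
    have heq' : s 0 * y.1 - s 1 * y.2 = 32 * ((s 2 * q1) * q2) := by
      rw [heq, hl]; ring
    have htF : y ∈ AA X Q0 a0 b0 (up s q1) F := by
      unfold AA
      rw [mem_filter, up_zero, up_one, up_two]
      refine ⟨hII, hm, hn, k1, k2, k3, k4, k5, k6, ?_, rfl⟩
      rw [heq']
      exact (dvd_mul_right _ _).mul_left _
    have hFE : F = E ∨ F = insert q1 E := by
      rw [hF, up_prod]
      have := sgF_up ((s 0 * y.1 : ℕ) : ℤ) ((s 1 * y.2 : ℕ) : ℤ) (∏ j, s j) q1 hD.sqf.ne_zero hq1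
      rw [k8] at this
      exact this
    have hvv : vv (up s q1) y = q2 := by
      have h1 := AA_eq hz2 hD' hM htF
      rw [up_zero, up_one, up_two, heq'] at h1
      have h2 : 0 < 32 * (s 2 * q1) := by have := hq1.pos; positivity
      have h3 : 32 * (s 2 * q1) * q2 = 32 * (s 2 * q1) * vv (up s q1) y := by
        rw [mul_assoc, h1, ← mul_assoc]
      exact (Nat.eq_of_mul_eq_mul_left h2 h3).symm
    by_cases hFb : Gd f t (up s q1) F
    · left
      have hq1m : ¬ y.1 ∣ ∏ j, up s q1 j := by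
        rw [up_prod]
        intro h
        rcases (hm.dvd_mul).1 h with h | h
        · exact nd_of_gt hm hb1 hD h
        · have h1 := (Nat.prime_dvd_prime_iff_eq hm hq1).1 h
          have := (hb3 q1 hr2).1
          omega
      have hq1n : ¬ y.2 ∣ ∏ j, up s q1 j := by
        rw [up_prod]
        intro h
        rcases (hn.dvd_mul).1 h with h | h
        · exact nd_of_gt hn hb2 hD h
        · have h1 := (Nat.prime_dvd_prime_iff_eq hn hq1).1 h
          have := (hb3 q1 hr2).2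
          omega
      have hq12' : ¬ vv (up s q1) y ∣ ∏ j, up s q1 j := by
        rw [up_prod, hvv]
        intro h
        rcases (hq2.dvd_mul).1 h with h | h
        · exact hq2s h
        · have h1 := (Nat.prime_dvd_prime_iff_eq hq2 hq1).1 h
          omega
      have h5 := goodE_of hI hC hM hD' hDs' htF (by rw [hvv]; exact hq2) hq12' hne hq1m hq1n
        hzt.1 hzt.2 hFb
      rw [up_zero, up_one] at h5
      exact h5
    · right; right
      refine ⟨q1, hPt, F, ?_, htF, ?_⟩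
      · unfold BS
        rw [mem_filter, mem_insert, mem_singleton]
        exact ⟨hFE, hFb⟩
      · rw [hvv]
        intro p hp hpq
        rw [(Nat.prime_dvd_prime_iff_eq hp hq2).1 hpq]
        have : (q1 : ℝ) ≤ q2 := by exact_mod_cast hq12.le
        linarith

end cls

end Pool.Agent.Y667.QK.R.E
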